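import Pool.Agent.H.MP_92e33a_gt.B

namespace Pool.Agent.Results.MP_2f5a6b_gt.No

open CategoryTheory Function Pool.Agent.H.MP_92e33a_gt

universe u

theorem result : ∃ F : CompHaus.{u} ⥤ CompHaus.{u},
    Normal F ∧ Finitary F ∧ SkeletalFunctor F ∧
    ∃ (X' Y' X Y : CompHaus.{u}) (f' : X' ⟶ Y') (f : X ⟶ Y) (pX : X' ⟶ X) (pY : Y' ⟶ Y),
      Finite X' ∧ Finite Y' ∧ Finite X ∧ Finite Y ∧
      Surjective f' ∧ Surjective f ∧ Surjective pX ∧ Surjective pY ∧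
      SkeletalSquare f' f pX pY ∧
      ¬ SkeletalSquare (F.map f') (F.map f) (F.map pX) (F.map pY) :=
  ⟨FF, FF_normal, FF_finitary, FF_skel, FF_square⟩

end Pool.Agent.Results.MP_2f5a6b_gt.No
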